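import Pool.Agent.Q288.Alt.Core

/-!
# Alternating point-line orderings under the deficiency-one hull condition

Let `n` points and `n` directed lines of the plane be in general position (no point on a line), such
that for every `k` the convex hull of any `k` of the points is met by at least `k - 1` of the lines.
Then there is an ordering `p_1, l_1, p_2, l_2, ..., p_n, l_n` of all the points and lines in which
`p_i` lies on the left side of `l_i` and `p_{i+1}` on its right side for every `i < n` (Q2).  In
particular `l_i` separates `p_i` from `p_{i+1}` (Q1).  So both questions have the answer yes.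
-/

set_option autoImplicit false

namespace Pool.Agent.Results.MP_719c39_co.AlternatingOrdering

open Finset

/-- A directed line of the plane, given by one of its points and its direction. -/
structure DLine where
  /-- a point of the line -/
  base : ℝ × ℝ
  /-- the direction -/
  dir : ℝ × ℝ
  ne : dir ≠ 0

/-- The points of a directed line. -/
def DLine.carrier (l : DLine) : Set (ℝ × ℝ) := {x | ∃ t : ℝ, x = l.base + t • l.dir}

/-- The determinant of the direction and the vector from the base point to `x`; it is positive on the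
left side of the line and negative on its right side. -/
def DLine.det (l : DLine) (x : ℝ × ℝ) : ℝ :=
  l.dir.1 * (x.2 - l.base.2) - l.dir.2 * (x.1 - l.base.1)

/-- The left side. -/
def DLine.left (l : DLine) : Set (ℝ × ℝ) := {x | 0 < l.det x}

/-- The right side. -/
def DLine.right (l : DLine) : Set (ℝ × ℝ) := {x | l.det x < 0}

/-- `x` and `y` lie in different open half-planes of `l`. -/
def Separates (l : DLine) (x y : ℝ × ℝ) : Prop :=
  (x ∈ l.left ∧ y ∈ l.right) ∨ (x ∈ l.right ∧ y ∈ l.left)

/-- No point lies on any line. -/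
def GeneralPosition {n : ℕ} (P : Fin n → ℝ × ℝ) (L : Fin n → DLine) : Prop :=
  ∀ i j, P i ∉ (L j).carrier

open scoped Classical in
/-- For every `k`-element set `X` of the points at least `k - 1` lines meet the convex hull of `X`. -/
def HullCondition {n : ℕ} (P : Fin n → ℝ × ℝ) (L : Fin n → DLine) : Prop :=
  ∀ X : Finset (Fin n), X.card - 1 ≤
    (univ.filter fun j => ((L j).carrier ∩ convexHull ℝ (P '' (X : Set (Fin n)))).Nonempty).card

theorem det_of_mem (l : DLine) (x : ℝ × ℝ) (h : x ∈ l.carrier) : l.det x = 0 := by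
  obtain ⟨t, rfl⟩ := h
  simp only [DLine.det, Prod.fst_add, Prod.snd_add, Prod.smul_fst, Prod.smul_snd, smul_eq_mul]
  ring

theorem mem_of_det (l : DLine) (x : ℝ × ℝ) (h : l.det x = 0) : x ∈ l.carrier := by
  have hne := l.ne
  unfold DLine.det at h
  by_cases h1 : l.dir.1 = 0
  · have h2 : l.dir.2 ≠ 0 := fun h2 => hne (Prod.ext h1 h2)
    refine ⟨(x.2 - l.base.2) / l.dir.2, ?_⟩
    rw [h1] at h
    have h3 : x.1 - l.base.1 = 0 := by
      have : l.dir.2 * (x.1 - l.base.1) = 0 := by linarith
      exact (mul_eq_zero.1 this).resolve_left h2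
    apply Prod.ext
    · simp only [Prod.fst_add, Prod.smul_fst, smul_eq_mul, h1]
      linarith
    · simp only [Prod.snd_add, Prod.smul_snd, smul_eq_mul]
      field_simp
      ring
  · refine ⟨(x.1 - l.base.1) / l.dir.1, ?_⟩
    apply Prod.ext
    · simp only [Prod.fst_add, Prod.smul_fst, smul_eq_mul]
      field_simp
      ring
    · simp only [Prod.snd_add, Prod.smul_snd, smul_eq_mul]
      field_simp
      linarith

theorem left_convex (l : DLine) : Convex ℝ l.left := by
  intro x hx y hy a b ha hb hab
  simp only [DLine.left, DLine.det, Set.mem_ofPred_eq, Prod.fst_add, Prod.snd_add, Prod.smul_fst,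
    Prod.smul_snd, smul_eq_mul] at hx hy ⊢
  have h1 : l.dir.1 * (a * x.2 + b * y.2 - l.base.2) - l.dir.2 * (a * x.1 + b * y.1 - l.base.1) =
      a * (l.dir.1 * (x.2 - l.base.2) - l.dir.2 * (x.1 - l.base.1)) +
      b * (l.dir.1 * (y.2 - l.base.2) - l.dir.2 * (y.1 - l.base.1)) := by
    have hb' : b = 1 - a := by linarith
    rw [hb']
    ring
  rw [h1]
  rcases eq_or_lt_of_le ha with h | h
  · have hb' : b = 1 := by linarith
    rw [← h, hb']
    linarith
  · have := mul_pos h hx
    have := mul_nonneg hb hy.le
    linarith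

theorem right_convex (l : DLine) : Convex ℝ l.right := by
  intro x hx y hy a b ha hb hab
  simp only [DLine.right, DLine.det, Set.mem_ofPred_eq, Prod.fst_add, Prod.snd_add, Prod.smul_fst,
    Prod.smul_snd, smul_eq_mul] at hx hy ⊢
  have h1 : l.dir.1 * (a * x.2 + b * y.2 - l.base.2) - l.dir.2 * (a * x.1 + b * y.1 - l.base.1) =
      a * (l.dir.1 * (x.2 - l.base.2) - l.dir.2 * (x.1 - l.base.1)) +
      b * (l.dir.1 * (y.2 - l.base.2) - l.dir.2 * (y.1 - l.base.1)) := by
    have hb' : b = 1 - a := by linarith
    rw [hb']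
    ring
  rw [h1]
  rcases eq_or_lt_of_le ha with h | h
  · have hb' : b = 1 := by linarith
    rw [← h, hb']
    linarith
  · have := mul_neg_of_pos_of_neg h hx
    have := mul_nonpos_of_nonneg_of_nonpos hb hy.le
    linarith

theorem directed (n : ℕ) (P : Fin n → ℝ × ℝ) (L : Fin n → DLine) (hgen : GeneralPosition P L)
    (hhull : HullCondition P L) :
    ∃ p q : Equiv.Perm (Fin n), ∀ (i : ℕ) (hi : i + 1 < n),
      P (p ⟨i, by omega⟩) ∈ (L (q ⟨i, by omega⟩)).left ∧
        P (p ⟨i + 1, hi⟩) ∈ (L (q ⟨i, by omega⟩)).right := by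
  classical
  have hside : ∀ i j, P i ∉ (L j).left → P i ∈ (L j).right := by
    intro i j h
    have h1 : ¬ (L j).det (P i) = 0 := fun h0 => hgen i j (mem_of_det _ _ h0)
    have h2 : ¬ 0 < (L j).det (P i) := h
    exact lt_of_le_of_ne (not_lt.1 h2) h1
  obtain ⟨p, q, hpq⟩ := Pool.Agent.Q288.Alt.bipartitions (K := Fin n) (V := Fin n)
    (fun j => univ.filter fun i => P i ∈ (L j).left) n (Fintype.card_fin n) (Fintype.card_fin n) (by
      intro X
      have h1 := hhull X
      refine Nat.sub_le_iff_le_add.1 (h1.trans (Finset.card_le_card ?_))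
      · -- a line which meets the hull splits the set
        intro j hj
        simp only [mem_filter, mem_univ, true_and] at hj ⊢
        obtain ⟨z, hz, hzc⟩ := hj
        have hz0 := det_of_mem _ _ hz
        constructor
        · by_contra hcon
          push Not at hcon
          have h3 : P '' (X : Set (Fin n)) ⊆ (L j).right := by
            rintro _ ⟨x, hx, rfl⟩
            exact hside x j (hcon x hx)
          have h4 := convexHull_min h3 (right_convex _) hzc
          have h5 : (L j).det z < 0 := h4
          linarith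
        · by_contra hcon
          push Not at hcon
          have h3 : P '' (X : Set (Fin n)) ⊆ (L j).left := by
            rintro _ ⟨x, hx, rfl⟩
            exact hcon x hx
          have h4 := convexHull_min h3 (left_convex _) hzc
          have h5 : 0 < (L j).det z := h4
          linarith)
  refine ⟨p, q, fun i hi => ?_⟩
  obtain ⟨h1, h2⟩ := hpq i hi
  simp only [mem_filter, mem_univ, true_and] at h1 h2
  exact ⟨h1, hside _ _ h2⟩

/-- Q1 and Q2: the answer to both questions is yes. -/
theorem result :
    (∀ (n : ℕ) (P : Fin n → ℝ × ℝ) (L : Fin n → DLine), GeneralPosition P L → HullCondition P L →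
      ∃ p q : Equiv.Perm (Fin n), ∀ (i : ℕ) (hi : i + 1 < n),
        Separates (L (q ⟨i, by omega⟩)) (P (p ⟨i, by omega⟩)) (P (p ⟨i + 1, hi⟩))) ∧
    (∀ (n : ℕ) (P : Fin n → ℝ × ℝ) (L : Fin n → DLine), GeneralPosition P L → HullCondition P L →
      ∃ p q : Equiv.Perm (Fin n), ∀ (i : ℕ) (hi : i + 1 < n),
        P (p ⟨i, by omega⟩) ∈ (L (q ⟨i, by omega⟩)).left ∧
          P (p ⟨i + 1, hi⟩) ∈ (L (q ⟨i, by omega⟩)).right) := by
  refine ⟨fun n P L h1 h2 => ?_, directed⟩
  obtain ⟨p, q, h⟩ := directed n P L h1 h2
  exact ⟨p, q, fun i hi => Or.inl (h i hi)⟩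

end Pool.Agent.Results.MP_719c39_co.AlternatingOrdering
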